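import Pool.Agent.H15.F2.Maj

set_option autoImplicit false

/-!
MP_169871, finite field model, lower bound: the number of representations for one majority block.
-/

namespace Pool.H15.F2

open Finset

set_option linter.unusedSectionVars false

variable {κ : Type*} [Fintype κ] [DecidableEq κ]

/-- The majority set. -/
noncomputable def A0 (κ : Type*) [Fintype κ] [DecidableEq κ] : Finset (κ → ZMod 2) := by
  classical exact Finset.univ.filter (fun x => 0 < TT x)

theorem mem_A0 (x : κ → ZMod 2) : x ∈ A0 κ ↔ 0 < TT x := by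
  classical
  unfold A0
  rw [Finset.mem_filter]
  exact ⟨fun h => h.2, fun h => ⟨Finset.mem_univ _, h⟩⟩

theorem sum_A0 (S : Finset κ) : ∑ x ∈ A0 κ, ch S x =
    (if S = ∅ then (2 : ℝ) ^ Fintype.card κ else 0) / 2 + 2 ^ Fintype.card κ / 2 * MM S := by
  classical
  have h1 : ∑ x ∈ A0 κ, ch S x = ∑ x : κ → ZMod 2, (ch S x / 2 + gg x * ch S x / 2) := by
    have e1 : ∀ x : κ → ZMod 2, ch S x / 2 + gg x * ch S x / 2 =
        if 0 < TT x then ch S x else 0 := by
      intro x
      unfold gg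
      split_ifs with h
      · ring
      · ring
    rw [Finset.sum_congr rfl (fun x _ => e1 x)]
    unfold A0
    rw [Finset.sum_filter]
  rw [h1, Finset.sum_add_distrib, ← Finset.sum_div, ← Finset.sum_div, sum_ch]
  congr 1
  unfold MM
  have h2 : (0 : ℝ) < 2 ^ Fintype.card κ := by positivity
  field_simp

theorem card_A0 (hq : Odd (Fintype.card κ)) : ((A0 κ).card : ℝ) = 2 ^ Fintype.card κ / 2 := by
  have h := sum_A0 (∅ : Finset κ)
  rw [MM_even hq ∅ (by simp), if_pos rfl, mul_zero, add_zero] at h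
  rw [← h]
  simp [ch_empty]

/-- The exact formula for the number of representations. -/
theorem rep_A0 (hq : Odd (Fintype.card κ)) (k : ℕ) (hk : 1 ≤ k) (z : κ → ZMod 2) :
    (2 : ℝ) ^ Fintype.card κ * rep (2 * k) (A0 κ) z = (2 ^ Fintype.card κ / 2) ^ (2 * k) *
      (1 + ∑ S : Finset κ, ch S z * MM S ^ (2 * k)) := by
  rw [rep_formula]
  have h1 : ∀ S : Finset κ, ch S z * (∑ x ∈ A0 κ, ch S x) ^ (2 * k) =
      (2 ^ Fintype.card κ / 2) ^ (2 * k) *
      ((if S = ∅ then 1 else 0) + ch S z * MM S ^ (2 * k)) := by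
    intro S
    rw [sum_A0]
    by_cases hS : S = ∅
    · rw [hS, if_pos rfl, if_pos rfl, MM_even hq ∅ (by simp), ch_empty,
        zero_pow (by omega)]
      ring
    · rw [if_neg hS, if_neg hS]
      rw [zero_div, zero_add, zero_add, mul_pow]
      ring
  rw [Finset.sum_congr rfl (fun S _ => h1 S), ← Finset.mul_sum, Finset.sum_add_distrib,
    Finset.sum_ite_eq' Finset.univ ∅]
  simp

/-- The main estimate for one block. -/
theorem sum_bound (hq : Odd (Fintype.card κ)) (h3 : 3 ≤ Fintype.card κ) (k : ℕ) (hk : 1 ≤ k)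
    (i₀ : κ) (z : κ → ZMod 2) :
    ∑ S : Finset κ, ch S z * MM S ^ (2 * k) ≤ MM {i₀} ^ (2 * k) * (TT z + 1) +
      (2 / ((Fintype.card κ : ℝ) * ((Fintype.card κ : ℝ) - 1))) ^ (k - 1) := by
  obtain ⟨μ, hμ⟩ : ∃ μ, μ = MM {i₀} ^ (2 * k) := ⟨_, rfl⟩
  obtain ⟨E, hE⟩ : ∃ E, E = (2 / ((Fintype.card κ : ℝ) * ((Fintype.card κ : ℝ) - 1))) ^ (k - 1) :=
    ⟨_, rfl⟩
  have hqr : (3 : ℝ) ≤ Fintype.card κ := by exact_mod_cast h3
  have hμ0 : 0 ≤ μ := by rw [hμ]; exact pow_nonneg (MM_single_nonneg i₀) _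
  have hE0 : 0 ≤ E := by
    rw [hE]
    apply pow_nonneg
    apply div_nonneg (by norm_num)
    nlinarith
  have hcM : ∀ S : Finset κ, ch S z * MM S ^ (2 * k) ≤ MM S ^ (2 * k) := by
    intro S
    have h1 : ch S z ≤ 1 := (le_abs_self _).trans (abs_ch S z).le
    have h2 : 0 ≤ MM S ^ (2 * k) := by rw [pow_mul]; positivity
    nlinarith
  have hpt : ∀ S : Finset κ, ch S z * MM S ^ (2 * k) ≤
      (if S.card = 1 then ch S z * μ else 0) + (if S = Finset.univ then μ else 0) +
        E * MM S ^ 2 := by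
    intro S
    have hEM : 0 ≤ E * MM S ^ 2 := mul_nonneg hE0 (sq_nonneg _)
    have hU : 0 ≤ (if S = Finset.univ then μ else 0) := by split_ifs <;> simp [hμ0]
    by_cases h1 : S.card = 1
    · rw [if_pos h1]
      have : MM S = MM {i₀} := MM_card S {i₀} (by simpa using h1)
      rw [this, ← hμ]
      rw [this] at hEM
      linarith
    · rw [if_neg h1, zero_add]
      by_cases h2 : S = Finset.univ
      · rw [if_pos h2]
        have h4 : MM S ^ (2 * k) ≤ μ := by
          rw [hμ, pow_mul, pow_mul]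
          apply pow_le_pow_left₀ (by positivity)
          have h5 : i₀ ∈ S := by rw [h2]; exact Finset.mem_univ _
          have h6 := abs_MM_le S i₀ h5
          rw [← sq_abs]
          exact pow_le_pow_left₀ (abs_nonneg _) h6 2
        linarith [hcM S]
      · rw [if_neg h2, zero_add]
        by_cases h4 : Even S.card
        · rw [MM_even hq S h4, zero_pow (by omega), mul_zero]
          rw [zero_pow (by omega), mul_zero]
        · refine (hcM S).trans ?_
          have h5 : S.card < Fintype.card κ := by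
            rw [← Finset.card_univ]
            exact Finset.card_lt_card (Finset.ssubset_univ_iff.2 h2)
          have h6 : S.card + 2 ≤ Fintype.card κ := by
            rcases hq with ⟨a, ha⟩
            rcases Nat.not_even_iff_odd.1 h4 with ⟨b, hb⟩
            omega
          have h7 : 2 ≤ S.card := by
            rcases Nat.not_even_iff_odd.1 h4 with ⟨b, hb⟩
            omega
          have h8 := MM_sq_le S h7 h6
          have h9 : MM S ^ (2 * k) = (MM S ^ 2) ^ (k - 1) * MM S ^ 2 := by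
            rw [← pow_succ, ← pow_mul]
            congr 1
            omega
          rw [h9]
          apply mul_le_mul_of_nonneg_right _ (sq_nonneg _)
          rw [hE]
          exact pow_le_pow_left₀ (sq_nonneg _) h8 _
  have h := Finset.sum_le_sum (fun S (_ : S ∈ (Finset.univ : Finset (Finset κ))) => hpt S)
  rw [Finset.sum_add_distrib, Finset.sum_add_distrib, ← Finset.mul_sum, MM_parseval, mul_one,
    Finset.sum_ite_eq' Finset.univ Finset.univ] at h
  have h1 : ∑ S : Finset κ, (if S.card = 1 then ch S z * μ else 0) = TT z * μ := by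
    rw [← Finset.sum_filter]
    have e1 : (Finset.univ : Finset (Finset κ)).filter (fun S => S.card = 1) =
        Finset.univ.map ⟨fun i : κ => ({i} : Finset κ), Finset.singleton_injective⟩ := by
      ext S
      simp only [Finset.mem_filter, Finset.mem_univ, true_and, Finset.mem_map,
        Function.Embedding.coeFn_mk]
      rw [Finset.card_eq_one]
      constructor
      · rintro ⟨a, rfl⟩; exact ⟨a, rfl⟩
      · rintro ⟨a, rfl⟩; exact ⟨a, rfl⟩
    rw [e1, Finset.sum_map, ← Finset.sum_mul]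
    congr 1
    unfold TT
    apply Finset.sum_congr rfl
    intro i _
    simp [ch]
  rw [h1] at h
  rw [← hμ, ← hE]
  simp only [Finset.mem_univ, if_true] at h
  linarith

/-- Lower bound for `μ = m₁ ^ (2 k)`. -/
theorem mu_ge (i₀ : κ) (k : ℕ) : (1 / (3 * (Fintype.card κ : ℝ))) ^ k ≤ MM {i₀} ^ (2 * k) := by
  rw [pow_mul]
  apply pow_le_pow_left₀ (by positivity)
  exact MM_single_sq i₀

/-- The error term is small. -/
theorem E_le (i₀ : κ) (h73 : 73 ≤ Fintype.card κ) (k : ℕ) (hk : 2 ≤ k) :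
    (2 / ((Fintype.card κ : ℝ) * ((Fintype.card κ : ℝ) - 1))) ^ (k - 1) ≤
      MM {i₀} ^ (2 * k) * (Fintype.card κ / 4) := by
  obtain ⟨q, hq⟩ : ∃ q : ℝ, q = Fintype.card κ := ⟨_, rfl⟩
  have hq1 : (73 : ℝ) ≤ q := by rw [hq]; exact_mod_cast h73
  have h1 := mu_ge i₀ k
  rw [← hq] at h1 ⊢
  have h2 : (1 / (3 * q)) ^ k * (q / 4) ≤ MM {i₀} ^ (2 * k) * (q / 4) :=
    mul_le_mul_of_nonneg_right h1 (by positivity)
  refine le_trans ?_ h2
  obtain ⟨l, rfl⟩ : ∃ l, k = l + 2 := ⟨k - 2, by omega⟩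
  have e1 : l + 2 - 1 = l + 1 := by omega
  rw [e1]
  have e2 : (1 / (3 * q)) ^ (l + 2) * (q / 4) = (1 / (3 * q)) ^ (l + 1) * (1 / 12) := by
    rw [pow_succ (1 / (3 * q)) (l + 1)]
    field_simp
    norm_num
  rw [e2]
  -- (2/(q(q-1)))^(l+1) ≤ (1/(36 q))^(l+1) ≤ ...
  have e3 : 2 / (q * (q - 1)) ≤ 1 / (3 * q) * (1 / 12) := by
    rw [div_mul_div_comm, div_le_div_iff₀ (by nlinarith) (by positivity)]
    nlinarith
  have e4 : (2 / (q * (q - 1))) ^ (l + 1) ≤ (1 / (3 * q) * (1 / 12)) ^ (l + 1) :=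
    pow_le_pow_left₀ (div_nonneg (by norm_num) (by nlinarith)) e3 _
  refine e4.trans ?_
  rw [mul_pow]
  apply mul_le_mul_of_nonneg_left _ (by positivity)
  calc (1 / 12 : ℝ) ^ (l + 1) ≤ (1 / 12) ^ 1 := by
        apply pow_le_pow_of_le_one (by norm_num) (by norm_num) (by omega)
    _ = 1 / 12 := pow_one _

/-- The block bound. -/
theorem blk_bound (hq : Odd (Fintype.card κ)) (h73 : 73 ≤ Fintype.card κ) (k : ℕ) (hk : 2 ≤ k)
    (i₀ : κ) (z : κ → ZMod 2) :
    (2 : ℝ) ^ Fintype.card κ * rep (2 * k) (A0 κ) z ≤ ((A0 κ).card : ℝ) ^ (2 * k) *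
      Real.exp (MM {i₀} ^ (2 * k) * (TT z + 1 + Fintype.card κ / 4)) := by
  rw [rep_A0 hq k (by omega), card_A0 hq]
  apply mul_le_mul_of_nonneg_left _ (by positivity)
  have h1 := sum_bound hq (by omega) k (by omega) i₀ z
  have h2 := E_le i₀ h73 k hk
  have h3 := Real.add_one_le_exp (MM {i₀} ^ (2 * k) * (TT z + 1 + (Fintype.card κ : ℝ) / 4))
  have h4 : MM {i₀} ^ (2 * k) * (TT z + 1 + (Fintype.card κ : ℝ) / 4) =
      MM {i₀} ^ (2 * k) * (TT z + 1) + MM {i₀} ^ (2 * k) * ((Fintype.card κ : ℝ) / 4) := by ring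
  linarith

end Pool.H15.F2
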