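import Mathlib

set_option autoImplicit false

/-!
MP_169871, finite field model, sharp lower bound for popular Bogolyubov sets. Characters of
`κ → ZMod 2` and the count of representations as a sum of `p` elements.
-/

namespace Pool.H15.F2

set_option linter.unusedSectionVars false

open Finset

/-- The sign `(-1)^a`. -/
noncomputable def sg (a : ZMod 2) : ℝ := if a = 0 then 1 else -1

theorem sg_zero : sg 0 = 1 := by simp [sg]

theorem sg_one : sg 1 = -1 := by simp [sg]

theorem cases2 : ∀ a : ZMod 2, a = 0 ∨ a = 1 := by decide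

theorem sg_add (a b : ZMod 2) : sg (a + b) = sg a * sg b := by
  have h : (1 : ZMod 2) + 1 = 0 := by decide
  rcases cases2 a with rfl | rfl <;> rcases cases2 b with rfl | rfl
  · rw [add_zero, sg_zero]; norm_num
  · rw [zero_add, sg_zero, sg_one]; norm_num
  · rw [add_zero, sg_zero, sg_one]; norm_num
  · rw [h, sg_zero, sg_one]; norm_num

theorem sg_sq (a : ZMod 2) : sg a * sg a = 1 := by
  rcases cases2 a with rfl | rfl
  · rw [sg_zero]; norm_num
  · rw [sg_one]; norm_num

theorem abs_sg (a : ZMod 2) : |sg a| = 1 := by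
  rcases cases2 a with rfl | rfl
  · rw [sg_zero]; norm_num
  · rw [sg_one]; norm_num

theorem sum_sg : ∑ a : ZMod 2, sg a = 0 := by
  have : (Finset.univ : Finset (ZMod 2)) = {0, 1} := by decide
  rw [this, Finset.sum_insert (by decide), Finset.sum_singleton, sg_zero, sg_one]
  norm_num

variable {κ : Type*} [Fintype κ] [DecidableEq κ]

/-- The character of `κ → ZMod 2` given by the set `S`. -/
noncomputable def ch (S : Finset κ) (x : κ → ZMod 2) : ℝ := ∏ i ∈ S, sg (x i)

theorem ch_add (S : Finset κ) (x y : κ → ZMod 2) : ch S (x + y) = ch S x * ch S y := by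
  unfold ch
  rw [← Finset.prod_mul_distrib]
  exact Finset.prod_congr rfl fun i _ => sg_add _ _

theorem ch_zero (S : Finset κ) : ch S (0 : κ → ZMod 2) = 1 := by
  unfold ch
  exact Finset.prod_eq_one fun i _ => sg_zero

theorem ch_empty (x : κ → ZMod 2) : ch ∅ x = 1 := by simp [ch]

theorem abs_ch (S : Finset κ) (x : κ → ZMod 2) : |ch S x| = 1 := by
  unfold ch
  rw [Finset.abs_prod]
  exact Finset.prod_eq_one fun i _ => abs_sg _

theorem ch_sum {ι : Type*} (S : Finset κ) (s : Finset ι) (x : ι → κ → ZMod 2) :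
    ch S (∑ i ∈ s, x i) = ∏ i ∈ s, ch S (x i) := by
  classical
  induction s using Finset.induction_on with
  | empty => simp [ch_zero]
  | insert a s ha ih => rw [Finset.sum_insert ha, Finset.prod_insert ha, ch_add, ih]

/-- Orthogonality, sum over `x`. -/
theorem sum_ch (S : Finset κ) :
    ∑ x : κ → ZMod 2, ch S x = if S = ∅ then (2 : ℝ) ^ Fintype.card κ else 0 := by
  have h1 : ∀ x : κ → ZMod 2, ch S x = ∏ i, (if i ∈ S then sg (x i) else 1) := by
    intro x
    unfold ch
    rw [Finset.prod_ite_mem, Finset.univ_inter]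
  rw [Finset.sum_congr rfl (fun x _ => h1 x)]
  have h2 := (Finset.prod_univ_sum (fun _ : κ => (Finset.univ : Finset (ZMod 2)))
    (fun i a => if i ∈ S then sg a else (1 : ℝ))).symm
  rw [Fintype.piFinset_univ] at h2
  rw [h2]
  by_cases hS : S = ∅
  · rw [if_pos hS, hS]
    simp
  · rw [if_neg hS]
    obtain ⟨i, hi⟩ := Finset.nonempty_iff_ne_empty.2 hS
    apply Finset.prod_eq_zero (Finset.mem_univ i)
    simp only [hi, if_true]
    exact sum_sg

/-- Orthogonality, sum over `S`. -/
theorem sum_ch_set (x : κ → ZMod 2) :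
    ∑ S : Finset κ, ch S x = if x = 0 then (2 : ℝ) ^ Fintype.card κ else 0 := by
  have h1 : ∑ S : Finset κ, ch S x = ∏ i, (1 + sg (x i)) := by
    rw [Finset.prod_one_add]
    rfl
  rw [h1]
  by_cases hx : x = 0
  · rw [if_pos hx, hx]
    simp only [Pi.zero_apply, sg_zero]
    rw [Finset.prod_const, Finset.card_univ]
    norm_num
  · rw [if_neg hx]
    obtain ⟨i, hi⟩ := Function.ne_iff.1 hx
    apply Finset.prod_eq_zero (Finset.mem_univ i)
    have : x i ≠ 0 := hi
    simp [sg, this]

theorem add_self' (x : κ → ZMod 2) : x + x = 0 := by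
  funext i
  have : ∀ a : ZMod 2, a + a = 0 := by decide
  exact this _

theorem add_eq_zero' (x y : κ → ZMod 2) : x + y = 0 ↔ y = x := by
  constructor
  · intro h
    calc y = x + (x + y) := by rw [← add_assoc, add_self', zero_add]
      _ = x := by rw [h, add_zero]
  · rintro rfl
    exact add_self' _

/-- The number of representations of `v` as a sum of `p` elements of `A`. -/
noncomputable def rep {M : Type*} [AddCommMonoid M] (p : ℕ) (A : Finset M) (v : M) : ℕ :=
  Nat.card {x : Fin p → M // (∀ i, x i ∈ A) ∧ ∑ i, x i = v}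

theorem rep_eq {M : Type*} [AddCommMonoid M] [Fintype M] [DecidableEq M] (p : ℕ) (A : Finset M)
    (v : M) : rep p A v = ((Fintype.piFinset fun _ : Fin p => A).filter
      (fun x => ∑ i, x i = v)).card := by
  classical
  unfold rep
  rw [Nat.card_eq_fintype_card, Fintype.card_subtype]
  congr 1
  ext x
  simp [Fintype.mem_piFinset]

/-- Fourier formula for the number of representations. -/
theorem rep_formula (p : ℕ) (A : Finset (κ → ZMod 2)) (z : κ → ZMod 2) :
    (2 : ℝ) ^ Fintype.card κ * rep p A z = ∑ S : Finset κ, ch S z * (∑ x ∈ A, ch S x) ^ p := by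
  classical
  have h1 : ∀ S : Finset κ, (∑ x ∈ A, ch S x) ^ p =
      ∑ x ∈ Fintype.piFinset (fun _ : Fin p => A), ch S (∑ i, x i) := by
    intro S
    have h := Finset.prod_univ_sum (fun _ : Fin p => A) (fun _ x => ch S x)
    rw [Finset.prod_const, Finset.card_univ, Fintype.card_fin] at h
    rw [h]
    apply Finset.sum_congr rfl
    intro x _
    rw [ch_sum]
  have h2 : ∑ S : Finset κ, ch S z * (∑ x ∈ A, ch S x) ^ p =
      ∑ x ∈ Fintype.piFinset (fun _ : Fin p => A), ∑ S : Finset κ, ch S (z + ∑ i, x i) := by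
    rw [Finset.sum_comm]
    apply Finset.sum_congr rfl
    intro S _
    rw [h1 S, Finset.mul_sum]
    apply Finset.sum_congr rfl
    intro x _
    rw [ch_add]
  rw [h2, rep_eq]
  simp only [sum_ch_set]
  rw [← Finset.sum_filter, Finset.sum_const, nsmul_eq_mul, mul_comm]
  congr 2
  congr 1
  apply Finset.filter_congr
  intro x _
  rw [add_eq_zero']

end Pool.H15.F2
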