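import Pool.Agent.H68.F2.Final

set_option autoImplicit false

/-!
MP_169871, finite field model: the linear inverse theorem (E'') in elementary form, for probability
mass functions on `F_2^n`.
-/

namespace Pool.H15.F2E

open Finset H2INV F2

noncomputable section

/-- The family without labels of a probability mass function. -/
def fm {E : Type} [Fintype E] (p : E → ℝ) (hp : IsPM p) : Fam E where
  Om := E
  fin := inferInstance
  m := p
  hm := hp
  X := fun x => x
  St := Unit
  J := fun _ => ()

theorem ent_const {Om : Type*} [Fintype Om] (m : Om → ℝ) (hm : IsPM m) {β : Type*} (b : β) :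
    ent m (fun _ : Om => b) = 0 := by
  classical
  unfold ent fib
  simp [hm.sum_one]

theorem cent_const {Om : Type*} [Fintype Om] (m : Om → ℝ) (hm : IsPM m) {α β : Type*} (f : Om → α)
    (g : Om → β) (hg : ∀ w w', g w = g w') : cent m f g = ent m f := by
  unfold cent
  have h1 : ent m (pr f g) = ent m f := by
    apply ent_congr
    intro w w'
    unfold pr
    rw [Prod.mk.injEq]
    exact ⟨fun h => h.1, fun h => ⟨h, hg _ _⟩⟩
  have h2 : ent m g = 0 := by
    rw [ent_congr m (g := fun _ => ()) (fun w w' => ⟨fun _ => rfl, fun _ => hg w w'⟩)]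
    exact ent_const m hm ()
  rw [h1, h2, sub_zero]

theorem sum_log {α : Type*} [Fintype α] (p u : α → ℝ) (hp1 : ∑ x, p x = 1)
    (hu : ∀ x, 0 < p x → 0 < u x) (hp : ∀ x, 0 ≤ p x) (c : ℝ) (hc : 0 < c) :
    ∑ x, p x * Real.log (c * u x) = Real.log c - ∑ x, p x * (-Real.log (u x)) := by
  have h1 : ∀ x, p x * Real.log (c * u x) = p x * Real.log c - p x * (-Real.log (u x)) := by
    intro x
    rcases (hp x).eq_or_lt with h | h
    · rw [← h]; ring
    · rw [Real.log_mul hc.ne' (hu x h).ne']; ring
  rw [Finset.sum_congr rfl (fun x _ => h1 x), Finset.sum_sub_distrib, ← Finset.sum_mul, hp1,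
    one_mul]

theorem card_E (n : ℕ) : (Nat.card (Fin n → ZMod 2) : ℝ) = (2 : ℝ) ^ n := by
  rw [Nat.card_eq_fintype_card]
  simp [ZMod.card]

theorem ls_top (n : ℕ) : ls (⊤ : AddSubgroup (Fin n → ZMod 2)) = Real.log ((2 : ℝ) ^ n) := by
  unfold ls
  have : Nat.card (⊤ : AddSubgroup (Fin n → ZMod 2)) = Nat.card (Fin n → ZMod 2) :=
    Nat.card_congr AddSubgroup.topEquiv.toEquiv
  rw [this, card_E]

/-- (E'') for mass functions. -/
theorem epp_elem : ∃ C : ℝ, 0 < C ∧ ∀ (n : ℕ) (p q : (Fin n → ZMod 2) → ℝ),
    (∀ x, 0 ≤ p x) → ∑ x, p x = 1 → (∀ x, 0 ≤ q x) → ∑ x, q x = 1 → ∀ s : ℝ, 0 < s →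
    (∀ V : Submodule (ZMod 2) (Fin n → ZMod 2),
      ∑ x, p x * Real.log ((2 : ℝ) ^ n / Nat.card V * ∑ᶠ v ∈ V, p (x + v)) ≤
        s * Real.log ((2 : ℝ) ^ n / Nat.card V)) →
    ∑ z, (∑ x, p x * q (z - x)) * Real.log ((2 : ℝ) ^ n * ∑ x, p x * q (z - x)) ≤
      C * s * ∑ x, q x * Real.log ((2 : ℝ) ^ n * q x) := by
  classical
  obtain ⟨C, hC, hE⟩ := Epp.epp_final
  refine ⟨C, by linarith, ?_⟩
  intro n p q hp hp1 hq hq1 s hs hV
  have hpm : IsPM p := ⟨hp, hp1⟩
  have hqm : IsPM q := ⟨hq, hq1⟩
  have h2n : (0 : ℝ) < (2 : ℝ) ^ n := by positivity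
  have key := hE (Fin n → ZMod 2) ⊤ (fm p hpm) (fm q hqm) s hs
    (fun _ _ _ => AddSubgroup.mem_top _) (fun _ _ _ => AddSubgroup.mem_top _) ?_
  · -- translate the conclusion
    have hHq : ls (⊤ : AddSubgroup (Fin n → ZMod 2)) - F2.H (fm q hqm) =
        ∑ x, q x * Real.log ((2 : ℝ) ^ n * q x) := by
      rw [sum_log q q hq1 (fun _ h => h) hq _ h2n, ls_top]
      congr 1
      show cent q (fun x : Fin n → ZMod 2 => x) (fun _ => ()) = _
      rw [cent_const q hqm _ _ (fun _ _ => rfl)]
      unfold ent
      apply Finset.sum_congr rfl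
      intro x _
      congr 3
      unfold fib
      rw [Finset.sum_eq_single x]
      · simp
      · intro b _ hb
        exact if_neg hb
      · intro h
        exact absurd (Finset.mem_univ _) h
    have hHs : ls (⊤ : AddSubgroup (Fin n → ZMod 2)) - F2.H (F2.add (fm p hpm) (fm q hqm)) =
        ∑ z, (∑ x, p x * q (z - x)) * Real.log ((2 : ℝ) ^ n * ∑ x, p x * q (z - x)) := by
      obtain ⟨c, hc⟩ : ∃ c : (Fin n → ZMod 2) → ℝ, c = fun z => ∑ x, p x * q (z - x) := ⟨_, rfl⟩
      have hc0 : ∀ z, 0 ≤ c z := by
        intro z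
        rw [hc]
        exact Finset.sum_nonneg fun x _ => mul_nonneg (hp _) (hq _)
      have hc1 : ∑ z, c z = 1 := by
        rw [hc]
        rw [Finset.sum_comm]
        have : ∀ x, ∑ z, p x * q (z - x) = p x := by
          intro x
          rw [← Finset.mul_sum]
          have h3 : ∑ z, q (z - x) = ∑ z, q z :=
            Fintype.sum_equiv (Equiv.subRight x) _ _ (fun _ => rfl)
          rw [h3, hq1, mul_one]
        rw [Finset.sum_congr rfl (fun x _ => this x), hp1]
      have e1 : ∑ z, (∑ x, p x * q (z - x)) * Real.log ((2 : ℝ) ^ n * ∑ x, p x * q (z - x)) =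
          ∑ z, c z * Real.log ((2 : ℝ) ^ n * c z) := by rw [hc]
      rw [e1, sum_log c c hc1 (fun _ h => h) hc0 _ h2n, ls_top]
      congr 1
      show cent (prodPM p q) (fun w : (Fin n → ZMod 2) × (Fin n → ZMod 2) => w.1 + w.2)
        (fun _ => ((), ())) = _
      rw [cent_const (prodPM p q) (isPM_prod hpm hqm) _ _ (fun _ _ => rfl)]
      unfold ent
      have hfib : ∀ w : (Fin n → ZMod 2) × (Fin n → ZMod 2),
          fib (prodPM p q) (fun w : (Fin n → ZMod 2) × (Fin n → ZMod 2) => w.1 + w.2) w =
          c (w.1 + w.2) := by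
        intro w
        unfold fib prodPM
        rw [hc, Fintype.sum_prod_type]
        apply Finset.sum_congr rfl
        intro x _
        dsimp only
        rw [Finset.sum_eq_single (w.1 + w.2 - x)]
        · simp
        · intro y _ hy
          apply if_neg
          intro h
          exact hy (by rw [← h]; abel)
        · intro h
          exact absurd (Finset.mem_univ _) h
      simp only [hfib]
      have h5 : ∀ z, c z * (-Real.log (c z)) =
          ∑ x, p x * q (z - x) * (-Real.log (c z)) := by
        intro z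
        rw [← Finset.sum_mul]
        congr 1
        rw [hc]
      rw [Finset.sum_congr rfl (fun z _ => h5 z), Finset.sum_comm, Fintype.sum_prod_type]
      apply Finset.sum_congr rfl
      intro x _
      unfold prodPM
      apply Fintype.sum_equiv (Equiv.addLeft x)
      intro y
      simp
    rw [hHq, hHs] at key
    exact key
  · -- translate the hypothesis
    intro W _
    have h := hV (AddSubgroup.toZModSubmodule 2 W)
    have hcardW : (0 : ℝ) < Nat.card W := by exact_mod_cast Nat.card_pos
    have e0 : (Nat.card (AddSubgroup.toZModSubmodule 2 W) : ℝ) = Nat.card W := rfl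
    rw [e0] at h
    have e1 : ls (⊤ : AddSubgroup (Fin n → ZMod 2)) - ls W =
        Real.log ((2 : ℝ) ^ n / Nat.card W) := by
      rw [ls_top]
      unfold ls
      rw [Real.log_div h2n.ne' hcardW.ne']
    rw [e1]
    refine le_trans (le_of_eq ?_) h
    -- the left side
    have hfs : ∀ x : Fin n → ZMod 2, ∑ᶠ v ∈ (AddSubgroup.toZModSubmodule 2 W), p (x + v) =
        ∑ v : W, p (x + v) := by
      intro x
      have h9 : ∑ᶠ v ∈ (AddSubgroup.toZModSubmodule 2 W), p (x + v) =
          ∑ᶠ v ∈ ((W : Set (Fin n → ZMod 2))), p (x + v) := rfl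
      rw [h9, finsum_mem_eq_finite_toFinset_sum _ (Set.toFinite _)]
      symm
      apply Finset.sum_bij (fun (v : W) _ => (v : Fin n → ZMod 2))
      · intro v _
        rw [Set.Finite.mem_toFinset]
        exact v.2
      · intro v _ v' _ h
        exact Subtype.ext h
      · intro y hy
        rw [Set.Finite.mem_toFinset] at hy
        have : y ∈ W := hy
        exact ⟨⟨y, this⟩, Finset.mem_univ _, rfl⟩
      · intro v _
        rfl
    simp only [hfs]
    have hfib : ∀ x : Fin n → ZMod 2, fib p (fun w => F2.q W w) x =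
        ∑ v : W, p (x + v) := by
      intro x
      have h10 : fib p (fun w => F2.q W w) x =
          ∑ w' ∈ Finset.univ.filter (fun w' => F2.q W w' = F2.q W x), p w' := by
        unfold fib
        rw [Finset.sum_filter]
        apply Finset.sum_congr rfl
        intro w' _
        congr
      rw [h10]
      symm
      apply Finset.sum_bij (fun (v : W) _ => x + (v : Fin n → ZMod 2))
      · intro v _
        rw [Finset.mem_filter]
        refine ⟨Finset.mem_univ _, ?_⟩
        unfold F2.q
        rw [QuotientAddGroup.eq]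
        have : -(x + (v : Fin n → ZMod 2)) + x = -(v : Fin n → ZMod 2) := by abel
        rw [this]
        exact W.neg_mem v.2
      · intro v _ v' _ h
        exact Subtype.ext (add_left_cancel h)
      · intro y hy
        rw [Finset.mem_filter] at hy
        have h6 := hy.2
        unfold F2.q at h6
        rw [QuotientAddGroup.eq] at h6
        refine ⟨⟨-(-y + x), W.neg_mem h6⟩, Finset.mem_univ _, ?_⟩
        simp
      · intro v _
        rfl
    have hsum : ∑ x, p x * Real.log ((2 : ℝ) ^ n / Nat.card W *
        ∑ v : W, p (x + v)) =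
        Real.log ((2 : ℝ) ^ n / Nat.card W) -
          ∑ x, p x * (-Real.log (∑ v : W, p (x + v))) := by
      apply sum_log p (fun x => ∑ v : W, p (x + v)) hp1 _ hp _ (by positivity)
      intro x hx
      have : p x ≤ ∑ v : W, p (x + v) := by
        have h7 := Finset.single_le_sum (f := fun v : W => p (x + v)) (fun v _ => hp _)
          (Finset.mem_univ (0 : W))
        simpa using h7
      linarith
    have hgoal : ls (⊤ : AddSubgroup (Fin n → ZMod 2)) - hh (fm p hpm) W =
        Real.log ((2 : ℝ) ^ n / Nat.card W) -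
          ∑ x, p x * (-Real.log (∑ v : W, p (x + v))) := by
      rw [← e1]
      have h11 : hh (fm p hpm) W = cent p (fun w => F2.q W w) (fun _ => ()) + ls W := rfl
      rw [h11, cent_const p hpm _ _ (fun _ _ => rfl)]
      have h8 : ent p (fun w => F2.q W w) =
          ∑ x, p x * (-Real.log (∑ v : W, p (x + v))) := by
        show ∑ x, p x * (-Real.log (fib p (fun w => F2.q W w) x)) = _
        apply Finset.sum_congr rfl
        intro x _
        rw [hfib]
      rw [h8]
      ring
    rw [hgoal, ← hsum]

end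

end Pool.H15.F2E
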