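import Pool.Agent.H15.F2.Blk

set_option autoImplicit false

/-!
MP_169871, finite field model: the sharp lower bound for the codimension of subspaces of the set
of popular elements of `2 k A`.
-/

namespace Pool.H15.F2

open Finset

set_option linter.unusedSectionVars false

/-- Representations in a product. -/
theorem rep_pi {H : Type*} [AddCommMonoid H] [Fintype H] [DecidableEq H] (m p : ℕ)
    (B : Finset H) (z : Fin m → H) :
    rep p (Fintype.piFinset (fun _ : Fin m => B)) z = ∏ i, rep p B (z i) := by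
  classical
  unfold rep
  rw [← Nat.card_pi]
  apply Nat.card_congr
  refine ⟨fun x i => ⟨fun l => x.1 l i, fun l => ?_, ?_⟩, fun w => ⟨fun l i => (w i).1 l,
    fun l => ?_, ?_⟩, ?_, ?_⟩
  · exact Fintype.mem_piFinset.1 (x.2.1 l) i
  · have := congrFun x.2.2 i
    rw [Finset.sum_apply] at this
    exact this
  · rw [Fintype.mem_piFinset]
    intro i
    exact (w i).2.1 l
  · funext i
    rw [Finset.sum_apply]
    exact (w i).2.2
  · intro x
    rfl
  · intro w
    rfl

/-- Representations are invariant under isomorphisms. -/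
theorem rep_map {M M' : Type*} [AddCommMonoid M] [AddCommMonoid M'] (e : M ≃+ M') (p : ℕ)
    (A : Finset M) (z : M) :
    rep p (A.map e.toEquiv.toEmbedding) (e z) = rep p A z := by
  unfold rep
  symm
  apply Nat.card_congr
  refine ⟨fun x => ⟨fun l => e (x.1 l), fun l => ?_, ?_⟩, fun w => ⟨fun l => e.symm (w.1 l),
    fun l => ?_, ?_⟩, ?_, ?_⟩
  · rw [Finset.mem_map]
    exact ⟨x.1 l, x.2.1 l, rfl⟩
  · rw [← map_sum, x.2.2]
  · have h := w.2.1 l
    rw [Finset.mem_map] at h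
    obtain ⟨a, ha, hb⟩ := h
    have : e.symm (w.1 l) = a := by
      rw [← hb]; simp
    show e.symm (w.1 l) ∈ A
    rw [this]; exact ha
  · rw [← map_sum, w.2.2]; simp
  · intro x
    ext l
    simp
  · intro w
    ext l
    simp

/-- Coordinates in blocks. -/
def eqv (m q : ℕ) : (Fin m → Fin q → ZMod 2) ≃+ (Fin (m * q) → ZMod 2) where
  toFun w p := w (finProdFinEquiv.symm p).1 (finProdFinEquiv.symm p).2
  invFun y i j := y (finProdFinEquiv (i, j))
  left_inv w := by
    funext i j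
    simp
  right_inv y := by
    funext p
    show y (finProdFinEquiv (finProdFinEquiv.symm p)) = y p
    rw [Equiv.apply_symm_apply]
  map_add' _ _ := rfl

/-- The product of majority sets. -/
noncomputable def AA (m q : ℕ) : Finset (Fin (m * q) → ZMod 2) :=
  (Fintype.piFinset (fun _ : Fin m => A0 (Fin q))).map (eqv m q).toEquiv.toEmbedding

theorem card_AA (m q : ℕ) (hq : Odd q) : (AA m q).card * 2 ^ m = 2 ^ (m * q) := by
  unfold AA
  rw [Finset.card_map, Fintype.card_piFinset_const]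
  have h1 := card_A0 (κ := Fin q) (by rw [Fintype.card_fin]; exact hq)
  rw [Fintype.card_fin] at h1
  have h2 : (A0 (Fin q)).card * 2 = 2 ^ q := by
    have : ((A0 (Fin q)).card : ℝ) * 2 = 2 ^ q := by rw [h1]; ring
    exact_mod_cast this
  rw [← mul_pow, h2, ← pow_mul, mul_comm q m]

theorem sum_TT (m q : ℕ) (z : Fin m → Fin q → ZMod 2) :
    ∑ i, TT (z i) = TT (eqv m q z) := by
  unfold TT
  rw [← Fintype.sum_prod_type' (fun (i : Fin m) (j : Fin q) => sg (z i j))]
  apply Fintype.sum_equiv finProdFinEquiv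
  intro p
  show sg (z p.1 p.2) = sg (z (finProdFinEquiv.symm (finProdFinEquiv p)).1
    (finProdFinEquiv.symm (finProdFinEquiv p)).2)
  rw [Equiv.symm_apply_apply]

/-- Upper bound for the number of representations. -/
theorem rep_AA (m q : ℕ) (hq : Odd q) (h73 : 73 ≤ q) (k : ℕ) (hk : 2 ≤ k) (i₀ : Fin q)
    (v : Fin (m * q) → ZMod 2) :
    (2 : ℝ) ^ (m * q) * rep (2 * k) (AA m q) v ≤ ((AA m q).card : ℝ) ^ (2 * k) *
      Real.exp (MM {i₀} ^ (2 * k) * (TT v + m * (1 + q / 4))) := by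
  obtain ⟨z, rfl⟩ : ∃ z, v = eqv m q z := ⟨(eqv m q).symm v, by simp⟩
  have h1 : rep (2 * k) (AA m q) (eqv m q z) = ∏ i, rep (2 * k) (A0 (Fin q)) (z i) := by
    unfold AA
    rw [rep_map, rep_pi]
  have h2 : ((AA m q).card : ℝ) = ((A0 (Fin q)).card : ℝ) ^ m := by
    unfold AA
    rw [Finset.card_map, Fintype.card_piFinset_const]
    push_cast
    rfl
  rw [h1, h2, ← sum_TT]
  push_cast
  have h3 : (2 : ℝ) ^ (m * q) = ∏ _i : Fin m, (2 : ℝ) ^ q := by
    rw [Finset.prod_const, Finset.card_univ, Fintype.card_fin, ← pow_mul, mul_comm]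
  have h4 : (((A0 (Fin q)).card : ℝ) ^ m) ^ (2 * k) = ∏ _i : Fin m, ((A0 (Fin q)).card : ℝ) ^ (2 * k)
      := by
    rw [Finset.prod_const, Finset.card_univ, Fintype.card_fin, ← pow_mul, ← pow_mul, mul_comm]
  have h5 : Real.exp (MM {i₀} ^ (2 * k) * (∑ i, TT (z i) + m * (1 + q / 4))) =
      ∏ i : Fin m, Real.exp (MM {i₀} ^ (2 * k) * (TT (z i) + 1 + q / 4)) := by
    rw [← Real.exp_sum, ← Finset.mul_sum]
    congr 2
    have : ∀ i : Fin m, TT (z i) + 1 + (q : ℝ) / 4 = TT (z i) + (1 + q / 4) := fun i => by ring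
    rw [Finset.sum_congr rfl (fun i _ => this i), Finset.sum_add_distrib, Finset.sum_const,
      Finset.card_univ, Fintype.card_fin, nsmul_eq_mul]
  rw [h3, h4, h5, ← Finset.prod_mul_distrib, ← Finset.prod_mul_distrib]
  apply Finset.prod_le_prod
  · intro i _
    positivity
  · intro i _
    have h := blk_bound (κ := Fin q) (by rw [Fintype.card_fin]; exact hq)
      (by rw [Fintype.card_fin]; exact h73) k hk i₀ (z i)
    rw [Fintype.card_fin] at h
    exact h

/-- Covering radius: a subspace of codimension `r` contains a vector with at most `r` zeros. -/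
theorem cover (n : ℕ) (V : Submodule (ZMod 2) (Fin n → ZMod 2)) :
    ∃ z ∈ V, (Finset.univ.filter (fun i => z i = 0)).card + Module.finrank (ZMod 2) V ≤ n := by
  classical
  have : Fact (Nat.Prime 2) := ⟨Nat.prime_two⟩
  obtain ⟨b, hbs, hspan, hli⟩ := exists_linearIndependent (ZMod 2)
    (Set.range (fun i : Fin n => V.mkQ (Pi.single i 1)))
  have hbf : b.Finite := (Set.finite_range _).subset hbs
  have : Fintype b := hbf.fintype
  have htop : Submodule.span (ZMod 2) (Set.range (fun i : Fin n => V.mkQ (Pi.single i 1))) = ⊤ := by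
    have e1 : (Set.range (fun i : Fin n => V.mkQ (Pi.single i 1))) =
        V.mkQ '' (Set.range (fun i : Fin n => (Pi.single i 1 : Fin n → ZMod 2))) := by
      rw [← Set.range_comp]
      rfl
    rw [e1, Submodule.span_image]
    have e2 : Submodule.span (ZMod 2) (Set.range (fun i : Fin n => (Pi.single i 1 : Fin n → ZMod 2)))
        = ⊤ := by
      have := (Pi.basisFun (ZMod 2) (Fin n)).span_eq
      rw [← this]
      congr 1
      ext x
      simp
    rw [e2, Submodule.map_top, Submodule.range_mkQ]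
  rw [htop] at hspan
  have hcard : Fintype.card b = Module.finrank (ZMod 2) ((Fin n → ZMod 2) ⧸ V) := by
    have hb : Module.Basis b (ZMod 2) ((Fin n → ZMod 2) ⧸ V) := Module.Basis.mk hli (by
      rw [Subtype.range_coe, hspan])
    exact (Module.finrank_eq_card_basis hb).symm
  have hq := V.finrank_quotient_add_finrank
  rw [Module.finrank_fin_fun, ← hcard] at hq
  -- choose an index for every element of `b`
  have hidx : ∀ v : b, ∃ i : Fin n, V.mkQ (Pi.single i 1) = v.1 := fun v => hbs v.2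
  choose idx hidx using hidx
  -- write the class of `1`
  have h1 : V.mkQ (1 : Fin n → ZMod 2) ∈ Submodule.span (ZMod 2) (Set.range (Subtype.val : b → _)) := by
    rw [Subtype.range_coe, hspan]; exact Submodule.mem_top
  rw [Submodule.mem_span_range_iff_exists_fun] at h1
  obtain ⟨c, hc⟩ := h1
  refine ⟨1 - ∑ v : b, c v • Pi.single (idx v) 1, ?_, ?_⟩
  · rw [← Submodule.Quotient.mk_eq_zero, ← Submodule.mkQ_apply, map_sub, map_sum, ← hc, sub_eq_zero]
    apply Finset.sum_congr rfl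
    intro v _
    rw [map_smul, hidx v]
  · have hsub : (Finset.univ.filter (fun i => (1 - ∑ v : b, c v • (Pi.single (idx v) 1 :
        Fin n → ZMod 2)) i = 0)) ⊆ Finset.univ.image idx := by
      intro i hi
      rw [Finset.mem_filter] at hi
      by_contra hcon
      have h2 : ∀ v : b, (c v • (Pi.single (idx v) 1 : Fin n → ZMod 2)) i = 0 := by
        intro v
        have : i ≠ idx v := fun h => hcon (by rw [h]; exact Finset.mem_image_of_mem _ (Finset.mem_univ v))
        rw [Pi.smul_apply, Pi.single_eq_of_ne this, smul_zero]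
      have h3 := hi.2
      rw [Pi.sub_apply, Finset.sum_apply, Finset.sum_eq_zero (fun v _ => h2 v), sub_zero,
        Pi.one_apply] at h3
      exact one_ne_zero h3
    have h2 := (Finset.card_le_card hsub).trans Finset.card_image_le
    rw [Finset.card_univ] at h2
    omega

theorem TT_eq (n : ℕ) (z : Fin n → ZMod 2) :
    TT z = 2 * ((Finset.univ.filter (fun i => z i = 0)).card : ℝ) - n := by
  unfold TT
  have h1 : ∀ i, sg (z i) = 2 * (if z i = 0 then (1 : ℝ) else 0) - 1 := by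
    intro i
    rcases cases2 (z i) with h | h
    · rw [h, sg_zero]; norm_num
    · rw [h, sg_one]; norm_num
  rw [Finset.sum_congr rfl (fun i _ => h1 i), Finset.sum_sub_distrib, ← Finset.mul_sum,
    Finset.sum_boole, Finset.sum_const, Finset.card_univ, Fintype.card_fin, nsmul_eq_mul, mul_one]

/-- The block example. -/
theorem low_blk (m q : ℕ) (hm : 1 ≤ m) (hq : Odd q) (h73 : 73 ≤ q) (k : ℕ) (hk : 2 ≤ k) (K : ℝ)
    (hK : 0 ≤ K) (hKq : 5 * (3 : ℝ) ^ k * (q : ℝ) ^ (k - 1) * (K + 1) ≤ m)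
    (V : Submodule (ZMod 2) (Fin (m * q) → ZMod 2))
    (hV : ∀ v ∈ V, Real.exp (-K) * ((AA m q).card : ℝ) ^ (2 * k) / 2 ^ (m * q) ≤
      rep (2 * k) (AA m q) v) :
    m * q < 4 * (m * q - Module.finrank (ZMod 2) V) := by
  by_contra hcon
  push Not at hcon
  have i₀ : Fin q := ⟨0, by omega⟩
  obtain ⟨z, hzV, hz⟩ := cover (m * q) V
  have hfin : Module.finrank (ZMod 2) V ≤ m * q := by omega
  have h1 := hV z hzV
  have h2 := rep_AA m q hq h73 k hk i₀ z
  have h2pos : (0 : ℝ) < 2 ^ (m * q) := by positivity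
  have hcA : 0 < (AA m q).card := by
    have h5 := card_AA m q hq
    by_contra h0
    have h6 : (AA m q).card = 0 := by omega
    rw [h6, zero_mul] at h5
    have : (0 : ℕ) < 2 ^ (m * q) := by positivity
    omega
  have hcA' : (0 : ℝ) < ((AA m q).card : ℝ) ^ (2 * k) := by
    have : (0 : ℝ) < (AA m q).card := by exact_mod_cast hcA
    positivity
  have h3 : Real.exp (-K) * ((AA m q).card : ℝ) ^ (2 * k) ≤ ((AA m q).card : ℝ) ^ (2 * k) *
      Real.exp (MM {i₀} ^ (2 * k) * (TT z + m * (1 + q / 4))) := by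
    rw [div_le_iff₀ h2pos] at h1
    linarith
  have h4 : Real.exp (-K) ≤ Real.exp (MM {i₀} ^ (2 * k) * (TT z + m * (1 + q / 4))) := by
    have : ((AA m q).card : ℝ) ^ (2 * k) * Real.exp (-K) ≤ ((AA m q).card : ℝ) ^ (2 * k) *
      Real.exp (MM {i₀} ^ (2 * k) * (TT z + m * (1 + q / 4))) := by linarith
    exact le_of_mul_le_mul_left this hcA'
  rw [Real.exp_le_exp] at h4
  -- the exponent
  obtain ⟨μ, hμ⟩ : ∃ μ, μ = MM {i₀} ^ (2 * k) := ⟨_, rfl⟩
  rw [← hμ] at h4
  have hμ1 : (1 / (3 * (q : ℝ))) ^ k ≤ μ := by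
    have := mu_ge i₀ k
    rw [Fintype.card_fin] at this
    rw [hμ]; exact this
  have hq0 : (73 : ℝ) ≤ q := by exact_mod_cast h73
  have hm0 : (1 : ℝ) ≤ m := by exact_mod_cast hm
  have hμ0 : 0 < μ := lt_of_lt_of_le (by positivity) hμ1
  have hT : TT z ≤ -((m : ℝ) * q / 2) := by
    rw [TT_eq]
    have h5 : 4 * (Finset.univ.filter (fun i => z i = 0)).card ≤ m * q := by omega
    have h6 : 4 * ((Finset.univ.filter (fun i => z i = 0)).card : ℝ) ≤ (m : ℝ) * q := by
      exact_mod_cast h5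
    push_cast
    linarith
  have h7 : TT z + m * (1 + q / 4) ≤ -((m : ℝ) * q / 5) := by
    have : (m : ℝ) * 73 ≤ m * q := mul_le_mul_of_nonneg_left hq0 (by linarith)
    nlinarith
  have h8 : -K ≤ μ * (-((m : ℝ) * q / 5)) := h4.trans (mul_le_mul_of_nonneg_left h7 hμ0.le)
  -- lower bound for `μ m q / 5`
  have h9 : (1 / (3 * (q : ℝ))) ^ k * ((m : ℝ) * q / 5) ≤ μ * ((m : ℝ) * q / 5) :=
    mul_le_mul_of_nonneg_right hμ1 (by positivity)
  have h10 : K + 1 ≤ (1 / (3 * (q : ℝ))) ^ k * ((m : ℝ) * q / 5) := by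
    have e1 : (1 / (3 * (q : ℝ))) ^ k * ((m : ℝ) * q / 5) =
        m / (5 * (3 : ℝ) ^ k * (q : ℝ) ^ (k - 1)) := by
      obtain ⟨l, rfl⟩ : ∃ l, k = l + 1 := ⟨k - 1, by omega⟩
      rw [Nat.add_sub_cancel, one_div, inv_pow, mul_pow, pow_succ (q : ℝ) l]
      have : (q : ℝ) ≠ 0 := by positivity
      field_simp
    rw [e1, le_div_iff₀ (by positivity)]
    calc (K + 1) * (5 * (3 : ℝ) ^ k * (q : ℝ) ^ (k - 1)) =
        5 * (3 : ℝ) ^ k * (q : ℝ) ^ (k - 1) * (K + 1) := by ring
      _ ≤ m := hKq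
  linarith

/-- The trivial example `A = {0}`. -/
theorem low_zero (m p : ℕ) (K : ℝ) (V : Submodule (ZMod 2) (Fin m → ZMod 2))
    (hV : ∀ v ∈ V, Real.exp (-K) * ((({0} : Finset (Fin m → ZMod 2))).card : ℝ) ^ p / 2 ^ m ≤
      rep p ({0} : Finset (Fin m → ZMod 2)) v) :
    m - Module.finrank (ZMod 2) V = m := by
  have h1 : V = ⊥ := by
    rw [Submodule.eq_bot_iff]
    intro v hv
    by_contra hne
    have h2 := hV v hv
    have h3 : rep p ({0} : Finset (Fin m → ZMod 2)) v = 0 := by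
      unfold rep
      rw [Nat.card_eq_zero]
      left
      refine ⟨fun x => hne ?_⟩
      rw [← x.2.2]
      apply Finset.sum_eq_zero
      intro i _
      exact Finset.mem_singleton.1 (x.2.1 i)
    rw [h3, Finset.card_singleton] at h2
    have : 0 < Real.exp (-K) * ((1 : ℕ) : ℝ) ^ p / 2 ^ m := by positivity
    simp only [Nat.cast_zero] at h2
    linarith
  rw [h1, finrank_bot]
  omega

/-- The sharp lower bound, all thresholds. -/
theorem low_main (k m : ℕ) (hk : 2 ≤ k) (hm : 1 ≤ m) (K : ℝ) (hK : 0 ≤ K) :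
    ∃ (n : ℕ) (A : Finset (Fin n → ZMod 2)), A.card * 2 ^ m = 2 ^ n ∧
      ∀ V : Submodule (ZMod 2) (Fin n → ZMod 2),
        (∀ v ∈ V, Real.exp (-K) * (A.card : ℝ) ^ (2 * k) / 2 ^ n ≤ rep (2 * k) A v) →
        (m : ℝ) ^ k ≤ 219 ^ k * (K + 1) * ((n - Module.finrank (ZMod 2) V : ℕ) : ℝ) ^ (k - 1) := by
  have hm0 : (1 : ℝ) ≤ m := by exact_mod_cast hm
  obtain ⟨l, rfl⟩ : ∃ l, k = l + 2 := ⟨k - 2, by omega⟩
  have e0 : l + 2 - 1 = l + 1 := by omega
  by_cases hq : 5 * (3 : ℝ) ^ (l + 2) * (73 : ℝ) ^ (l + 1) * (K + 1) ≤ m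
  · -- the maximal odd `q`
    classical
    let P : ℕ → Prop := fun a => 5 * (3 : ℝ) ^ (l + 2) * ((2 * a + 73 : ℕ) : ℝ) ^ (l + 1) * (K + 1) ≤ m
    have hP0 : P 0 := by
      show 5 * (3 : ℝ) ^ (l + 2) * ((2 * 0 + 73 : ℕ) : ℝ) ^ (l + 1) * (K + 1) ≤ m
      push_cast
      norm_num
      norm_num at hq
      linarith
    have hPb : ∀ a, P a → a ≤ m := by
      intro a ha
      have ha' : 5 * (3 : ℝ) ^ (l + 2) * ((2 * a + 73 : ℕ) : ℝ) ^ (l + 1) * (K + 1) ≤ m := ha
      have h1 : (1 : ℝ) ≤ ((2 * a + 73 : ℕ) : ℝ) := by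
        have : 1 ≤ 2 * a + 73 := by omega
        exact_mod_cast this
      have h2 : ((2 * a + 73 : ℕ) : ℝ) ≤ ((2 * a + 73 : ℕ) : ℝ) ^ (l + 1) :=
        le_self_pow₀ h1 (by omega)
      have h3 : (1 : ℝ) ≤ 5 * (3 : ℝ) ^ (l + 2) := by
        have : (1 : ℝ) ≤ (3 : ℝ) ^ (l + 2) := one_le_pow₀ (by norm_num)
        linarith
      have h4 : ((2 * a + 73 : ℕ) : ℝ) ≤ m := by
        calc ((2 * a + 73 : ℕ) : ℝ) ≤ ((2 * a + 73 : ℕ) : ℝ) ^ (l + 1) := h2
          _ = 1 * ((2 * a + 73 : ℕ) : ℝ) ^ (l + 1) * 1 := by ring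
          _ ≤ 5 * (3 : ℝ) ^ (l + 2) * ((2 * a + 73 : ℕ) : ℝ) ^ (l + 1) * (K + 1) := by
              apply mul_le_mul
              · exact mul_le_mul_of_nonneg_right h3 (by positivity)
              · linarith
              · norm_num
              · positivity
          _ ≤ m := ha'
      have h5 : 2 * a + 73 ≤ m := by exact_mod_cast h4
      omega
    obtain ⟨a, haP, hamax⟩ : ∃ a, P a ∧ ¬ P (a + 1) := by
      by_contra hcon
      push Not at hcon
      have : ∀ a, P a := fun a => Nat.rec hP0 (fun a ha => hcon a ha) a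
      have := hPb (m + 1) (this _)
      omega
    have haP' : 5 * (3 : ℝ) ^ (l + 2) * ((2 * a + 73 : ℕ) : ℝ) ^ (l + 1) * (K + 1) ≤ m := haP
    have hamax' : (m : ℝ) < 5 * (3 : ℝ) ^ (l + 2) * ((2 * (a + 1) + 73 : ℕ) : ℝ) ^ (l + 1) * (K + 1) :=
      not_le.1 hamax
    obtain ⟨q, hqd⟩ : ∃ q, q = 2 * a + 73 := ⟨_, rfl⟩
    rw [← hqd] at haP'
    have hodd : Odd q := ⟨a + 36, by omega⟩
    refine ⟨m * q, AA m q, card_AA m q hodd, ?_⟩
    intro V hV
    have hres := low_blk m q hm hodd (by omega) (l + 2) (by omega) K hK (by rw [e0]; exact haP') V hV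
    obtain ⟨D, hD⟩ : ∃ D, D = m * q - Module.finrank (ZMod 2) V := ⟨_, rfl⟩
    rw [← hD] at hres ⊢
    rw [e0]
    have h1 : (m : ℝ) * q ≤ 4 * D := by exact_mod_cast hres.le
    have h2 : ((2 * (a + 1) + 73 : ℕ) : ℝ) ≤ 2 * q := by
      have : 2 * (a + 1) + 73 ≤ 2 * q := by omega
      exact_mod_cast this
    have h3 : (m : ℝ) ≤ 5 * (3 : ℝ) ^ (l + 2) * (2 * q) ^ (l + 1) * (K + 1) := by
      refine hamax'.le.trans ?_
      apply mul_le_mul_of_nonneg_right _ (by linarith)
      apply mul_le_mul_of_nonneg_left _ (by positivity)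
      exact pow_le_pow_left₀ (by positivity) h2 _
    have hDq : (m : ℝ) ^ (l + 1) * (2 * q) ^ (l + 1) ≤ 8 ^ (l + 1) * (D : ℝ) ^ (l + 1) := by
      rw [← mul_pow, ← mul_pow]
      apply pow_le_pow_left₀ (by positivity)
      linarith
    calc (m : ℝ) ^ (l + 2) = m ^ (l + 1) * m := pow_succ _ _
      _ ≤ m ^ (l + 1) * (5 * (3 : ℝ) ^ (l + 2) * (2 * q) ^ (l + 1) * (K + 1)) :=
          mul_le_mul_of_nonneg_left h3 (by positivity)
      _ = 5 * (3 : ℝ) ^ (l + 2) * (K + 1) * (m ^ (l + 1) * (2 * q) ^ (l + 1)) := by ring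
      _ ≤ 5 * (3 : ℝ) ^ (l + 2) * (K + 1) * (8 ^ (l + 1) * (D : ℝ) ^ (l + 1)) :=
          mul_le_mul_of_nonneg_left hDq (by positivity)
      _ = (5 * (3 : ℝ) ^ (l + 2) * 8 ^ (l + 1)) * (K + 1) * (D : ℝ) ^ (l + 1) := by ring
      _ ≤ 219 ^ (l + 2) * (K + 1) * (D : ℝ) ^ (l + 1) := by
          apply mul_le_mul_of_nonneg_right _ (by positivity)
          apply mul_le_mul_of_nonneg_right _ (by linarith)
          calc 5 * (3 : ℝ) ^ (l + 2) * 8 ^ (l + 1) ≤ 5 ^ (l + 2) * 3 ^ (l + 2) * 8 ^ (l + 2) := by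
                apply mul_le_mul
                · apply mul_le_mul_of_nonneg_right _ (by positivity)
                  exact le_self_pow₀ (by norm_num) (by omega)
                · exact pow_le_pow_right₀ (by norm_num) (by omega)
                · positivity
                · positivity
            _ = 120 ^ (l + 2) := by rw [← mul_pow, ← mul_pow]; norm_num
            _ ≤ 219 ^ (l + 2) := pow_le_pow_left₀ (by norm_num) (by norm_num) _
  · push Not at hq
    refine ⟨m, {0}, by simp, ?_⟩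
    intro V hV
    rw [low_zero m (2 * (l + 2)) K V hV, e0]
    calc (m : ℝ) ^ (l + 2) = m * m ^ (l + 1) := by rw [pow_succ (m : ℝ) (l + 1)]; ring
      _ ≤ (5 * (3 : ℝ) ^ (l + 2) * (73 : ℝ) ^ (l + 1) * (K + 1)) * m ^ (l + 1) :=
          mul_le_mul_of_nonneg_right hq.le (by positivity)
      _ = (5 * (3 : ℝ) ^ (l + 2) * (73 : ℝ) ^ (l + 1)) * (K + 1) * m ^ (l + 1) := by ring
      _ ≤ 219 ^ (l + 2) * (K + 1) * (m : ℝ) ^ (l + 1) := by
          apply mul_le_mul_of_nonneg_right _ (by positivity)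
          apply mul_le_mul_of_nonneg_right _ (by linarith)
          have e1 : (219 : ℝ) ^ (l + 2) = 3 ^ (l + 2) * 73 ^ (l + 2) := by
            rw [← mul_pow]; norm_num
          rw [e1, pow_succ (73 : ℝ) (l + 1)]
          have : (0 : ℝ) < (3 : ℝ) ^ (l + 2) * 73 ^ (l + 1) := by positivity
          nlinarith

end Pool.H15.F2
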