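import Pool.Agent.H15.F2.Low

set_option autoImplicit false

/-!
MP_169871, finite field model: the sharp lower bound in its final form (real exponents).
-/

namespace Pool.H15.F2

open Finset

/-- LOWER BOUND, sharp, `c` absolute. The threshold is `e^(-K)` times the average. -/
theorem lower : ∃ c : ℝ, 0 < c ∧ ∀ k : ℕ, 2 ≤ k → ∀ m : ℕ, 1 ≤ m → ∀ K : ℝ, 0 ≤ K →
    ∃ (n : ℕ) (A : Finset (Fin n → ZMod 2)), A.card * 2 ^ m = 2 ^ n ∧
      ∀ V : Submodule (ZMod 2) (Fin n → ZMod 2),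
        (∀ v ∈ V, Real.exp (-K) * (A.card : ℝ) ^ (2 * k) / (2 : ℝ) ^ n ≤
          ((Finset.univ.filter fun x : Fin (2 * k) → (Fin n → ZMod 2) =>
            (∀ i, x i ∈ A) ∧ ∑ i, x i = v).card : ℝ)) →
        c * (m : ℝ) ^ ((k : ℝ) / ((k : ℝ) - 1)) / (K + 1) ^ (1 / ((k : ℝ) - 1)) ≤
          (n : ℝ) - Module.finrank (ZMod 2) V := by
  classical
  refine ⟨1 / 219 ^ 2, by positivity, ?_⟩
  intro k hk m hm K hK
  obtain ⟨n, A, hA, hV⟩ := low_main k m hk hm K hK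
  refine ⟨n, A, hA, ?_⟩
  intro V hpop
  have hfin : Module.finrank (ZMod 2) V ≤ n := by
    have := Submodule.finrank_le V
    rw [Module.finrank_fin_fun] at this
    exact this
  have h1 := hV V (fun v hv => by
    have h2 := hpop v hv
    rw [rep_eq]
    refine h2.trans (le_of_eq ?_)
    congr 2
    ext x
    simp [Fintype.mem_piFinset])
  obtain ⟨D, hD⟩ : ∃ D, D = n - Module.finrank (ZMod 2) V := ⟨_, rfl⟩
  rw [← hD] at h1
  have hDr : (n : ℝ) - Module.finrank (ZMod 2) V = D := by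
    rw [hD, Nat.cast_sub hfin]
  rw [hDr]
  obtain ⟨l, rfl⟩ : ∃ l, k = l + 2 := ⟨k - 2, by omega⟩
  have e0 : l + 2 - 1 = l + 1 := by omega
  rw [e0] at h1
  obtain ⟨p, hp⟩ : ∃ p : ℝ, p = 1 / ((l : ℝ) + 1) := ⟨_, rfl⟩
  have hl : (0 : ℝ) < (l : ℝ) + 1 := by positivity
  have hp0 : 0 < p := by rw [hp]; positivity
  have hp1 : p ≤ 1 := by
    rw [hp, div_le_one hl]
    have : (0 : ℝ) ≤ l := Nat.cast_nonneg l
    linarith
  have e1 : ((l + 2 : ℕ) : ℝ) - 1 = (l : ℝ) + 1 := by push_cast; ring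
  rw [e1, ← hp]
  have e2 : ((l + 2 : ℕ) : ℝ) / ((l : ℝ) + 1) = 1 + p := by
    rw [hp]; push_cast; field_simp; ring
  rw [e2]
  have hm0 : (1 : ℝ) ≤ m := by exact_mod_cast hm
  have hD0 : (0 : ℝ) ≤ D := Nat.cast_nonneg D
  have hK1 : (0 : ℝ) < K + 1 := by linarith
  -- take the `p`-th power
  have h3 : ((m : ℝ) ^ (l + 2)) ^ p ≤ (219 ^ (l + 2) * (K + 1) * (D : ℝ) ^ (l + 1)) ^ p :=
    Real.rpow_le_rpow (by positivity) h1 hp0.le
  have e3 : ((l + 2 : ℕ) : ℝ) * p = 1 + p := by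
    rw [hp]; push_cast; field_simp; ring
  have e4 : ((l + 1 : ℕ) : ℝ) * p = 1 := by
    rw [hp]; push_cast; field_simp
  have h4 : ((m : ℝ) ^ (l + 2)) ^ p = (m : ℝ) ^ (1 + p) := by
    rw [← Real.rpow_natCast, ← Real.rpow_mul (by positivity), e3]
  have h5 : (219 ^ (l + 2) * (K + 1) * (D : ℝ) ^ (l + 1)) ^ p =
      219 ^ (1 + p) * (K + 1) ^ p * D := by
    rw [Real.mul_rpow (by positivity) (by positivity), Real.mul_rpow (by positivity) hK1.le]
    rw [← Real.rpow_natCast (219 : ℝ), ← Real.rpow_mul (by norm_num), e3,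
      ← Real.rpow_natCast (D : ℝ), ← Real.rpow_mul hD0, e4, Real.rpow_one]
  rw [h4, h5] at h3
  have h6 : (219 : ℝ) ^ (1 + p) ≤ 219 ^ 2 := by
    rw [← Real.rpow_natCast (219 : ℝ) 2]
    apply Real.rpow_le_rpow_of_exponent_le (by norm_num)
    push_cast
    linarith
  have hKp : 0 < (K + 1) ^ p := Real.rpow_pos_of_pos hK1 _
  rw [div_le_iff₀ hKp, div_mul_eq_mul_div, one_mul, div_le_iff₀ (by norm_num)]
  calc (m : ℝ) ^ (1 + p) ≤ 219 ^ (1 + p) * (K + 1) ^ p * D := h3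
    _ ≤ 219 ^ 2 * (K + 1) ^ p * D := by
        apply mul_le_mul_of_nonneg_right _ hD0
        exact mul_le_mul_of_nonneg_right h6 hKp.le
    _ = (D : ℝ) * (K + 1) ^ p * 219 ^ 2 := by ring

end Pool.H15.F2
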