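import Pool.Agent.H15.F2.Ch

set_option autoImplicit false

/-!
MP_169871, finite field model, lower bound: the majority function on `κ → ZMod 2` and its
Fourier coefficients.
-/

namespace Pool.H15.F2

open Finset

set_option linter.unusedSectionVars false

variable {κ : Type*} [Fintype κ] [DecidableEq κ]

/-- `T(x) = ∑ (-1)^(x i)`. -/
noncomputable def TT (x : κ → ZMod 2) : ℝ := ∑ i, sg (x i)

/-- The sign of `T`. -/
noncomputable def gg (x : κ → ZMod 2) : ℝ := if 0 < TT x then 1 else -1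

/-- The Fourier coefficient of `g`. -/
noncomputable def MM (S : Finset κ) : ℝ := (∑ x : κ → ZMod 2, gg x * ch S x) / 2 ^ Fintype.card κ

theorem gg_sq (x : κ → ZMod 2) : gg x * gg x = 1 := by
  unfold gg
  split <;> norm_num

/-- `T` is an odd integer if `κ` has odd cardinality. -/
theorem TT_odd (hq : Odd (Fintype.card κ)) (x : κ → ZMod 2) : TT x ≠ 0 := by
  have h : TT x = (Fintype.card κ : ℝ) - 2 * ((Finset.univ.filter (fun i => x i ≠ 0)).card : ℝ) := by
    unfold TT
    have h1 : ∀ i, sg (x i) = 1 - 2 * (if x i ≠ 0 then (1 : ℝ) else 0) := by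
      intro i
      rcases cases2 (x i) with h | h
      · rw [h, sg_zero]; simp
      · rw [h, sg_one]; norm_num
    rw [Finset.sum_congr rfl (fun i _ => h1 i), Finset.sum_sub_distrib, ← Finset.mul_sum,
      Finset.sum_const, Finset.card_univ, nsmul_eq_mul, mul_one, Finset.sum_boole]
  intro h0
  rw [h] at h0
  obtain ⟨a, ha⟩ := hq
  rw [ha] at h0
  have h2 : ((2 * a + 1 : ℕ) : ℝ) = ((2 * (Finset.univ.filter (fun i => x i ≠ 0)).card : ℕ) : ℝ) := by
    push_cast
    push_cast at h0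
    linarith
  have h3 : 2 * a + 1 = 2 * (Finset.univ.filter (fun i => x i ≠ 0)).card := by exact_mod_cast h2
  omega

theorem sg_add_one (a : ZMod 2) : sg (a + 1) = -sg a := by
  rw [sg_add, sg_one]; ring

theorem TT_flip (x : κ → ZMod 2) : TT (x + 1) = -TT x := by
  unfold TT
  rw [← Finset.sum_neg_distrib]
  apply Finset.sum_congr rfl
  intro i _
  rw [Pi.add_apply, Pi.one_apply, sg_add_one]

theorem gg_flip (hq : Odd (Fintype.card κ)) (x : κ → ZMod 2) : gg (x + 1) = -gg x := by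
  have h := TT_odd hq x
  unfold gg
  rw [TT_flip]
  rcases lt_or_gt_of_ne h with h1 | h1
  · rw [if_pos (by linarith), if_neg (by linarith)]; ring
  · rw [if_neg (by linarith), if_pos h1]

theorem ch_flip (S : Finset κ) (x : κ → ZMod 2) : ch S (x + 1) = (-1) ^ S.card * ch S x := by
  unfold ch
  rw [← Finset.prod_const, ← Finset.prod_mul_distrib]
  apply Finset.prod_congr rfl
  intro i _
  rw [Pi.add_apply, Pi.one_apply, sg_add_one]
  ring

theorem sum_shift (a : κ → ZMod 2) (F : (κ → ZMod 2) → ℝ) : ∑ x, F (x + a) = ∑ x, F x :=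
  Fintype.sum_equiv (Equiv.addRight a) _ _ (fun _ => rfl)

/-- Even coefficients vanish. -/
theorem MM_even (hq : Odd (Fintype.card κ)) (S : Finset κ) (hS : Even S.card) : MM S = 0 := by
  have h1 : ∑ x : κ → ZMod 2, gg x * ch S x = -∑ x : κ → ZMod 2, gg x * ch S x := by
    conv_lhs => rw [← sum_shift 1 (fun x => gg x * ch S x)]
    rw [← Finset.sum_neg_distrib]
    apply Finset.sum_congr rfl
    intro x _
    rw [gg_flip hq, ch_flip, hS.neg_one_pow]
    ring
  unfold MM
  have h2 : ∑ x : κ → ZMod 2, gg x * ch S x = 0 := by linarith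
  rw [h2, zero_div]

/-- Parseval. -/
theorem MM_parseval : ∑ S : Finset κ, MM S ^ 2 = 1 := by
  have h2 : (0 : ℝ) < 2 ^ Fintype.card κ := by positivity
  have h1 : ∑ S : Finset κ, (∑ x : κ → ZMod 2, gg x * ch S x) ^ 2 =
      2 ^ Fintype.card κ * 2 ^ Fintype.card κ := by
    have e1 : ∀ S : Finset κ, (∑ x : κ → ZMod 2, gg x * ch S x) ^ 2 =
        ∑ x : κ → ZMod 2, ∑ y : κ → ZMod 2, gg x * gg y * ch S (x + y) := by
      intro S
      rw [sq, Finset.sum_mul_sum]
      apply Finset.sum_congr rfl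
      intro x _
      apply Finset.sum_congr rfl
      intro y _
      rw [ch_add]
      ring
    rw [Finset.sum_congr rfl (fun S _ => e1 S), Finset.sum_comm]
    have e2 : ∀ x : κ → ZMod 2, ∑ S : Finset κ, ∑ y : κ → ZMod 2, gg x * gg y * ch S (x + y) =
        2 ^ Fintype.card κ := by
      intro x
      rw [Finset.sum_comm]
      have e3 : ∀ y : κ → ZMod 2, ∑ S : Finset κ, gg x * gg y * ch S (x + y) =
          if y = x then (2 : ℝ) ^ Fintype.card κ else 0 := by
        intro y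
        rw [← Finset.mul_sum, sum_ch_set]
        by_cases h : y = x
        · rw [if_pos h, h, if_pos (add_self' x), gg_sq, one_mul]
        · rw [if_neg h, if_neg (fun h' => h ((add_eq_zero' x y).1 h')), mul_zero]
      rw [Finset.sum_congr rfl (fun y _ => e3 y), Finset.sum_ite_eq' Finset.univ x]
      simp
    rw [Finset.sum_congr rfl (fun x _ => e2 x), Finset.sum_const, Finset.card_univ, nsmul_eq_mul]
    congr 1
    simp
  unfold MM
  simp only [div_pow]
  rw [← Finset.sum_div, h1, sq]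
  exact div_self (by positivity)

/-- The coefficients are permutation invariant. -/
theorem MM_perm (S : Finset κ) (σ : Equiv.Perm κ) : MM (S.map σ.toEmbedding) = MM S := by
  unfold MM
  congr 1
  apply Fintype.sum_equiv (Equiv.arrowCongr σ.symm (Equiv.refl (ZMod 2)))
  intro x
  have e1 : (Equiv.arrowCongr σ.symm (Equiv.refl (ZMod 2))) x = fun i => x (σ i) := by
    funext i
    simp [Equiv.arrowCongr]
  rw [e1]
  congr 1
  · unfold gg TT
    have : ∑ i, sg (x (σ i)) = ∑ i, sg (x i) := Equiv.sum_comp σ (fun i => sg (x i))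
    rw [this]
  · unfold ch
    rw [Finset.prod_map]
    rfl

theorem MM_card (S S' : Finset κ) (h : S.card = S'.card) : MM S = MM S' := by
  obtain ⟨σ, hσ⟩ : ∃ σ : Equiv.Perm κ, S.map σ.toEmbedding = S' := by
    let e : {x // x ∈ S} ≃ {x // x ∈ S'} := Finset.equivOfCardEq h
    refine ⟨e.extendSubtype, ?_⟩
    apply Finset.eq_of_subset_of_card_le
    · intro y hy
      rw [Finset.mem_map] at hy
      obtain ⟨x, hx, rfl⟩ := hy
      exact Equiv.extendSubtype_mem e x hx
    · rw [Finset.card_map, h]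
  rw [← hσ, MM_perm]

/-- The unit vector. -/
noncomputable def ev (i : κ) : κ → ZMod 2 := fun j => if j = i then 1 else 0

theorem ev_self (i : κ) : ev i i = 1 := by simp [ev]

theorem ev_ne (i j : κ) (h : j ≠ i) : ev i j = 0 := by simp [ev, h]

theorem ch_ev (S : Finset κ) (i : κ) (hi : i ∈ S) (x : κ → ZMod 2) :
    ch S (x + ev i) = -ch S x := by
  rw [ch_add]
  have : ch S (ev i) = -1 := by
    unfold ch
    rw [Finset.prod_eq_single i]
    · rw [ev_self, sg_one]
    · intro j _ hj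
      rw [ev_ne i j hj, sg_zero]
    · intro h; exact absurd hi h
  rw [this]; ring

theorem TT_ev (i : κ) (x : κ → ZMod 2) : TT (x + ev i) = TT x - 2 * sg (x i) := by
  unfold TT
  have h1 : ∀ j, sg ((x + ev i) j) = sg (x j) - (if j = i then 2 * sg (x i) else 0) := by
    intro j
    by_cases hj : j = i
    · rw [hj, if_pos rfl, Pi.add_apply, ev_self, sg_add_one]; ring
    · rw [if_neg hj, Pi.add_apply, ev_ne i j hj, add_zero, sub_zero]
  rw [Finset.sum_congr rfl (fun j _ => h1 j), Finset.sum_sub_distrib, Finset.sum_ite_eq'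
    Finset.univ i]
  simp

theorem gg_mono (x y : κ → ZMod 2) (h : TT x ≤ TT y) : gg x ≤ gg y := by
  unfold gg
  split_ifs with h1 h2 h2
  · exact le_rfl
  · exact absurd (lt_of_lt_of_le h1 h) h2
  · norm_num
  · exact le_rfl

/-- Every coefficient is at most the influence of any of its coordinates. -/
theorem abs_MM_le (S : Finset κ) (i : κ) (hi : i ∈ S) : |MM S| ≤ MM {i} := by
  have h2 : (0 : ℝ) < 2 ^ Fintype.card κ := by positivity
  have key : ∀ S : Finset κ, i ∈ S → 2 * ∑ x : κ → ZMod 2, gg x * ch S x =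
      ∑ x : κ → ZMod 2, (gg x - gg (x + ev i)) * ch S x := by
    intro S hi
    have h1 : ∑ x : κ → ZMod 2, gg x * ch S x = -∑ x : κ → ZMod 2, gg (x + ev i) * ch S x := by
      conv_lhs => rw [← sum_shift (ev i) (fun x => gg x * ch S x)]
      rw [← Finset.sum_neg_distrib]
      apply Finset.sum_congr rfl
      intro x _
      rw [ch_ev S i hi]
      ring
    have h3 : ∑ x : κ → ZMod 2, (gg x - gg (x + ev i)) * ch S x =
        ∑ x : κ → ZMod 2, gg x * ch S x - ∑ x : κ → ZMod 2, gg (x + ev i) * ch S x := by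
      rw [← Finset.sum_sub_distrib]
      apply Finset.sum_congr rfl
      intro x _
      ring
    rw [h3]
    linarith
  have h3 : ∀ x : κ → ZMod 2, (gg x - gg (x + ev i)) * ch {i} x = |gg x - gg (x + ev i)| := by
    intro x
    have e1 : ch {i} x = sg (x i) := by simp [ch]
    rw [e1]
    have hT := TT_ev i x
    rcases cases2 (x i) with h | h
    · rw [h, sg_zero] at hT ⊢
      have := gg_mono (x + ev i) x (by linarith)
      rw [abs_of_nonneg (by linarith), mul_one]
    · rw [h, sg_one] at hT ⊢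
      have := gg_mono x (x + ev i) (by linarith)
      rw [abs_of_nonpos (by linarith)]
      ring
  have h4 : |2 * ∑ x : κ → ZMod 2, gg x * ch S x| ≤ 2 * ∑ x : κ → ZMod 2, gg x * ch {i} x := by
    rw [key S hi, key {i} (Finset.mem_singleton_self i)]
    refine (Finset.abs_sum_le_sum_abs _ _).trans (le_of_eq ?_)
    apply Finset.sum_congr rfl
    intro x _
    rw [h3, abs_mul, abs_ch, mul_one]
  unfold MM
  rw [abs_div, abs_of_pos h2, div_le_div_iff_of_pos_right h2]
  rw [abs_mul, abs_of_pos (by norm_num : (0 : ℝ) < 2)] at h4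
  linarith

theorem MM_single_nonneg (i : κ) : 0 ≤ MM {i} :=
  (abs_nonneg _).trans (abs_MM_le {i} i (Finset.mem_singleton_self i))

/-- `q m₁ = E |T|`. -/
theorem MM_single_sum (i : κ) : (Fintype.card κ : ℝ) * MM {i} =
    (∑ x : κ → ZMod 2, |TT x|) / 2 ^ Fintype.card κ := by
  have h1 : ∑ j : κ, MM {j} = (Fintype.card κ : ℝ) * MM {i} := by
    rw [Finset.sum_congr rfl (fun j _ => MM_card {j} {i} (by simp)), Finset.sum_const,
      Finset.card_univ, nsmul_eq_mul]
  rw [← h1]
  unfold MM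
  rw [← Finset.sum_div, Finset.sum_comm]
  congr 1
  apply Finset.sum_congr rfl
  intro x _
  rw [← Finset.mul_sum]
  have e1 : ∑ j : κ, ch {j} x = TT x := by
    unfold TT
    apply Finset.sum_congr rfl
    intro j _
    simp [ch]
  rw [e1]
  unfold gg
  split_ifs with h
  · rw [abs_of_pos h, one_mul]
  · rw [abs_of_nonpos (not_lt.1 h)]; ring

/-- Moments of partial sums. -/
theorem moments (s : Finset κ) :
    ∑ x : κ → ZMod 2, (∑ i ∈ s, sg (x i)) ^ 2 = 2 ^ Fintype.card κ * s.card ∧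
    ∑ x : κ → ZMod 2, (∑ i ∈ s, sg (x i)) ^ 4 =
      2 ^ Fintype.card κ * (3 * (s.card : ℝ) ^ 2 - 2 * s.card) := by
  induction s using Finset.induction_on with
  | empty => simp
  | insert a s ha ih =>
    obtain ⟨ih1, ih2⟩ := ih
    have hflip : ∀ x : κ → ZMod 2, ∑ i ∈ s, sg ((x + ev a) i) = ∑ i ∈ s, sg (x i) := by
      intro x
      apply Finset.sum_congr rfl
      intro i hi
      have : i ≠ a := fun h => ha (h ▸ hi)
      rw [Pi.add_apply, ev_ne a i this, add_zero]
    have hz : ∀ p : ℕ, ∑ x : κ → ZMod 2, sg (x a) * (∑ i ∈ s, sg (x i)) ^ p = 0 := by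
      intro p
      have h1 : ∑ x : κ → ZMod 2, sg (x a) * (∑ i ∈ s, sg (x i)) ^ p =
          -∑ x : κ → ZMod 2, sg (x a) * (∑ i ∈ s, sg (x i)) ^ p := by
        conv_lhs => rw [← sum_shift (ev a) (fun x => sg (x a) * (∑ i ∈ s, sg (x i)) ^ p)]
        rw [← Finset.sum_neg_distrib]
        apply Finset.sum_congr rfl
        intro x _
        rw [hflip, Pi.add_apply, ev_self, sg_add_one]
        ring
      linarith
    have hc : ∑ _x : κ → ZMod 2, (1 : ℝ) = 2 ^ Fintype.card κ := by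
      simp
    have hz1 := hz 1
    have hz3 := hz 3
    have hcard : ((insert a s).card : ℝ) = s.card + 1 := by
      rw [Finset.card_insert_of_notMem ha]
      push_cast
      ring
    constructor
    · have e1 : ∀ x : κ → ZMod 2, (∑ i ∈ insert a s, sg (x i)) ^ 2 =
          1 + 2 * (sg (x a) * (∑ i ∈ s, sg (x i)) ^ 1) + (∑ i ∈ s, sg (x i)) ^ 2 := by
        intro x
        rw [Finset.sum_insert ha]
        have := sg_sq (x a)
        linear_combination this
      rw [Finset.sum_congr rfl (fun x _ => e1 x), Finset.sum_add_distrib, Finset.sum_add_distrib,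
        ← Finset.mul_sum, hz1, hc, ih1, hcard]
      ring
    · have e1 : ∀ x : κ → ZMod 2, (∑ i ∈ insert a s, sg (x i)) ^ 4 =
          1 + 4 * (sg (x a) * (∑ i ∈ s, sg (x i)) ^ 1) + 6 * (∑ i ∈ s, sg (x i)) ^ 2 +
          4 * (sg (x a) * (∑ i ∈ s, sg (x i)) ^ 3) + (∑ i ∈ s, sg (x i)) ^ 4 := by
        intro x
        rw [Finset.sum_insert ha]
        obtain ⟨T, hT⟩ : ∃ T, T = ∑ i ∈ s, sg (x i) := ⟨_, rfl⟩
        rw [← hT]
        have := sg_sq (x a)
        linear_combination (sg (x a) ^ 2 + 1 + 4 * sg (x a) * T + 6 * T ^ 2) * this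
      rw [Finset.sum_congr rfl (fun x _ => e1 x), Finset.sum_add_distrib, Finset.sum_add_distrib,
        Finset.sum_add_distrib, Finset.sum_add_distrib, ← Finset.mul_sum, ← Finset.mul_sum,
        ← Finset.mul_sum, hz1, hz3, hc, ih1, ih2, hcard]
      ring

/-- The Khintchine inequality `m₁ ^ 2 ≥ 1 / (3 q)`. -/
theorem MM_single_sq (i : κ) : 1 / (3 * (Fintype.card κ : ℝ)) ≤ MM {i} ^ 2 := by
  obtain ⟨q, hq⟩ : ∃ q : ℝ, q = Fintype.card κ := ⟨_, rfl⟩
  have hq0 : 0 < q := by
    rw [hq]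
    have : 0 < Fintype.card κ := Fintype.card_pos_iff.2 ⟨i⟩
    exact_mod_cast this
  have h2 : (0 : ℝ) < 2 ^ Fintype.card κ := by positivity
  obtain ⟨a, ha⟩ : ∃ a, a = Real.sqrt (3 / (4 * q)) := ⟨_, rfl⟩
  have ha0 : 0 < a := by rw [ha]; exact Real.sqrt_pos.2 (by positivity)
  have ha2 : a ^ 2 = 3 / (4 * q) := by rw [ha]; exact Real.sq_sqrt (by positivity)
  have ha3 : a ^ 2 * q = 3 / 4 := by rw [ha2]; field_simp
  obtain ⟨hm2, hm4⟩ := moments (Finset.univ : Finset κ)
  rw [Finset.card_univ, ← hq] at hm2 hm4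
  have hpt : ∀ u : ℝ, a * u ^ 2 - 4 * a ^ 3 / 27 * u ^ 4 ≤ |u| := by
    intro u
    have e1 : u ^ 2 = |u| ^ 2 := (sq_abs u).symm
    have e2 : u ^ 4 = |u| ^ 4 := by
      have : u ^ 4 = (u ^ 2) ^ 2 := by ring
      rw [this, e1]; ring
    rw [e1, e2]
    obtain ⟨v, hv⟩ : ∃ v, v = |u| := ⟨_, rfl⟩
    rw [← hv]
    have hv0 : 0 ≤ v := by rw [hv]; exact abs_nonneg u
    have h3 : 0 ≤ (2 * (a * v) - 3) ^ 2 * (a * v + 3) := by positivity
    have h4 : a * v - 4 * (a * v) ^ 3 / 27 ≤ 1 := by nlinarith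
    have h5 : v * (a * v - 4 * (a * v) ^ 3 / 27) ≤ v * 1 := mul_le_mul_of_nonneg_left h4 hv0
    have h6 : v * (a * v - 4 * (a * v) ^ 3 / 27) = a * v ^ 2 - 4 * a ^ 3 / 27 * v ^ 4 := by ring
    linarith
  have h3 : a * (2 ^ Fintype.card κ * q) -
      4 * a ^ 3 / 27 * (2 ^ Fintype.card κ * (3 * q ^ 2 - 2 * q)) ≤
      ∑ x : κ → ZMod 2, |TT x| := by
    rw [← hm2, ← hm4, Finset.mul_sum, Finset.mul_sum, ← Finset.sum_sub_distrib]
    apply Finset.sum_le_sum
    intro x _
    exact hpt _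
  have h4 := MM_single_sum i
  rw [← hq] at h4 ⊢
  have h5 : a * q - 4 * a ^ 3 / 27 * (3 * q ^ 2 - 2 * q) ≤ q * MM {i} := by
    rw [h4, le_div_iff₀ h2]
    have e1 : (a * q - 4 * a ^ 3 / 27 * (3 * q ^ 2 - 2 * q)) * 2 ^ Fintype.card κ =
        a * (2 ^ Fintype.card κ * q) -
        4 * a ^ 3 / 27 * (2 ^ Fintype.card κ * (3 * q ^ 2 - 2 * q)) := by ring
    rw [e1]
    exact h3
  have h6 : a * q - 4 * a ^ 3 / 27 * (3 * q ^ 2) ≤ q * MM {i} := by
    have : 0 ≤ 4 * a ^ 3 / 27 * (2 * q) := by positivity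
    nlinarith
  have h7 : a * q - 4 * a ^ 3 / 27 * (3 * q ^ 2) = q * (2 / 3 * a) := by
    have : 4 * a ^ 3 / 27 * (3 * q ^ 2) = 4 / 9 * a * q * (a ^ 2 * q) := by ring
    rw [this, ha3]; ring
  rw [h7] at h6
  have h8 : 2 / 3 * a ≤ MM {i} := le_of_mul_le_mul_left h6 hq0
  have h9 : (2 / 3 * a) ^ 2 ≤ MM {i} ^ 2 := pow_le_pow_left₀ (by positivity) h8 2
  have h10 : (2 / 3 * a) ^ 2 = 1 / (3 * q) := by
    have : (2 / 3 * a) ^ 2 = 4 / 9 * a ^ 2 := by ring
    rw [this, ha2]
    field_simp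
    norm_num
  rw [h10] at h9
  exact h9

theorem choose_two_le (q : ℕ) : ∀ j, 2 ≤ j → 2 * j ≤ q → q.choose 2 ≤ q.choose j := by
  intro j hj
  induction j, hj using Nat.le_induction with
  | base => intro _; exact le_rfl
  | succ j hj ih =>
    intro h
    exact (ih (by omega)).trans (Nat.choose_le_succ_of_lt_half_left (by omega))

theorem choose_two_le' (q j : ℕ) (h1 : 2 ≤ j) (h2 : j + 2 ≤ q) : q.choose 2 ≤ q.choose j := by
  rcases Nat.lt_or_ge q (2 * j) with h | h
  · rw [← Nat.choose_symm (by omega : j ≤ q)]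
    exact choose_two_le q (q - j) (by omega) (by omega)
  · exact choose_two_le q j h1 h

/-- The middle coefficients are small. -/
theorem MM_sq_le (S : Finset κ) (h1 : 2 ≤ S.card) (h2 : S.card + 2 ≤ Fintype.card κ) :
    MM S ^ 2 ≤ 2 / ((Fintype.card κ : ℝ) * ((Fintype.card κ : ℝ) - 1)) := by
  have h3 : ∑ S' ∈ Finset.powersetCard S.card (Finset.univ : Finset κ), MM S' ^ 2 ≤ 1 := by
    rw [← MM_parseval (κ := κ)]
    apply Finset.sum_le_sum_of_subset_of_nonneg (Finset.subset_univ _)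
    intro S' _ _
    positivity
  rw [Finset.sum_congr rfl (fun S' hS' => by
    rw [MM_card S' S (Finset.mem_powersetCard.1 hS').2]), Finset.sum_const,
    Finset.card_powersetCard, Finset.card_univ, nsmul_eq_mul] at h3
  have h4 : ((Fintype.card κ).choose 2 : ℝ) ≤ ((Fintype.card κ).choose S.card : ℝ) := by
    exact_mod_cast choose_two_le' _ _ h1 h2
  rw [Nat.cast_choose_two] at h4
  have hq : (4 : ℝ) ≤ Fintype.card κ := by
    have : 4 ≤ Fintype.card κ := by omega
    exact_mod_cast this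
  rw [le_div_iff₀ (by nlinarith)]
  have h5 : (Fintype.card κ : ℝ) * ((Fintype.card κ : ℝ) - 1) / 2 * MM S ^ 2 ≤ 1 :=
    (mul_le_mul_of_nonneg_right h4 (by positivity)).trans h3
  nlinarith

end Pool.H15.F2
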